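import Pool.Agent.Lib.MP_cb3775_ag.B.Alg0

/-!
# Algebra of the base

Hints. `P` is irreducible in the UFD `Poly n`, so prime. For `x` with `δ x ≠ 0` the polynomial
`P.map (eval x)` is monic of degree `natDegree P` and separable, so it has exactly `natDegree P` distinct
roots in `ℂ`. `dvd_iff`: divide `f` by the monic `P`, the remainder has degree `< natDegree P` and for
`δ x ≠ 0` vanishes at `natDegree P` points, so all its coefficients vanish at `x`; so (coefficient) * `δ` is
zero everywhere, so the coefficient is `0`. `norm_exists`: `Poly n / (P)` is a domain, integral over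
`MvPolynomial (Fin n) ℂ`, so the ideal generated by the class of `β` contains the class of a nonzero
constant `c` (`Ideal.comap_ne_bot_of_integral_mem` for `AdjoinRoot P`).
-/

set_option autoImplicit false

namespace MP_cb3775_ag

open Polynomial

variable {n : ℕ}

namespace Base

variable (B : Base n)

/-- `S` is irreducible. -/
theorem mul_vanish {f g : Poly n} (h : ∀ s ∈ B.pts, evalAt s f * evalAt s g = 0) :
    (∀ s ∈ B.pts, evalAt s f = 0) ∨ ∀ s ∈ B.pts, evalAt s g = 0 := by
  have hd : B.P ∣ f * g := by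
    rw [B.dvd_iff]
    intro s hs
    rw [map_mul]
    exact h s hs
  rcases B.prime.dvd_or_dvd hd with h1 | h1
  · exact Or.inl ((B.dvd_iff f).mp h1)
  · exact Or.inr ((B.dvd_iff g).mp h1)

/-- finitely many polynomials, none of them identically zero on `S`, are simultaneously nonzero at some
point of `S`. -/
theorem exists_ne_of_finset {κ : Type} (I : Finset κ) (f : κ → Poly n)
    (h : ∀ i ∈ I, ∃ s ∈ B.pts, evalAt s (f i) ≠ 0) : ∃ s ∈ B.pts, ∀ i ∈ I, evalAt s (f i) ≠ 0 := by
  by_contra hcon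
  push Not at hcon
  have hd : B.P ∣ ∏ i ∈ I, f i := by
    rw [B.dvd_iff]
    intro s hs
    obtain ⟨i, hi, h0⟩ := hcon s hs
    rw [map_prod]
    exact Finset.prod_eq_zero hi h0
  obtain ⟨i, hi, hdi⟩ := B.prime.exists_mem_finset_dvd hd
  obtain ⟨s, hs, hne⟩ := h i hi
  exact hne ((B.dvd_iff (f i)).mp hdi s hs)

theorem norm_exists (β : Poly n) (h : ∃ s ∈ B.pts, evalAt s β ≠ 0) :
    ∃ (c : MvPolynomial (Fin n) ℂ) (γ : Poly n), c ≠ 0 ∧
      ∀ s ∈ B.pts, MvPolynomial.eval s.1 c = evalAt s β * evalAt s γ := by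
  have : Fact (Irreducible B.P) := ⟨B.irreducible⟩
  have hdom : IsDomain (AdjoinRoot B.P) := AdjoinRoot.isDomain_of_prime B.prime
  have hβ : AdjoinRoot.mk B.P β ≠ 0 := by
    intro h0
    rw [AdjoinRoot.mk_eq_zero] at h0
    obtain ⟨s, hs, hne⟩ := h
    exact hne ((B.dvd_iff β).mp h0 s hs)
  have hfin : Module.Finite (MvPolynomial (Fin n) ℂ) (AdjoinRoot B.P) := B.monic.finite_adjoinRoot
  have hint : IsIntegral (MvPolynomial (Fin n) ℂ) (AdjoinRoot.mk B.P β) :=
    IsIntegral.of_finite _ _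
  have hne := Ideal.comap_ne_bot_of_integral_mem hβ
    (Ideal.subset_span (Set.mem_singleton (AdjoinRoot.mk B.P β))) hint
  obtain ⟨c, hc, hc0⟩ := Submodule.exists_mem_ne_zero_of_ne_bot hne
  rw [Ideal.mem_comap, Ideal.mem_span_singleton] at hc
  obtain ⟨a, ha⟩ := hc
  obtain ⟨γ, rfl⟩ := AdjoinRoot.mk_surjective a
  refine ⟨c, γ, hc0, fun s hs => ?_⟩
  have h1 : AdjoinRoot.mk B.P (C c) = AdjoinRoot.mk B.P (β * γ) := by
    rw [map_mul, ← ha]
    rfl
  rw [AdjoinRoot.mk_eq_mk, B.dvd_iff] at h1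
  have h2 := h1 s hs
  rw [map_sub, evalAt_C, map_mul, sub_eq_zero] at h2
  exact h2

/-- The derivative of `P` in the direction `y` does not vanish on `S`. -/
theorem deriv_ne (s : Pt n) (hs : s ∈ B.pts) : evalAt s (derivative B.P) ≠ 0 := by
  intro h0
  obtain ⟨a, b, hab⟩ := B.separable s.1 hs.1
  have h1 := congrArg (Polynomial.eval s.2) hab
  have h2 := hs.2
  rw [evalAt_eq] at h0 h2
  rw [← derivative_map] at h0
  rw [eval_add, eval_mul, eval_mul, h2, h0, mul_zero, mul_zero, add_zero, eval_one] at h1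
  exact zero_ne_one h1

end Base

end MP_cb3775_ag
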