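import Pool.Agent.Lib.MP_cb3775_ag.Defs

/-!
# Algebra of the base

Hints. `P` is irreducible in the UFD `Poly n`, so prime. For `x` with `δ x ≠ 0` the polynomial
`P.map (eval x)` is monic of degree `natDegree P` and separable, so it has exactly `natDegree P` distinct
roots in `ℂ`. `dvd_iff`: divide `f` by the monic `P`, the remainder has degree `< natDegree P` and for
`δ x ≠ 0` vanishes at `natDegree P` points, so all its coefficients vanish at `x`; so (coefficient) * `δ` is
zero everywhere, so the coefficient is `0`. `norm_exists`: `Poly n / (P)` is a domain, integral over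
`MvPolynomial (Fin n) ℂ`, so the ideal generated by the class of `β` contains the class of a nonzero
constant `c` (`Ideal.comap_ne_bot_of_integral_mem` for `AdjoinRoot P`).
-/

set_option autoImplicit false

namespace MP_cb3775_ag

open Polynomial

variable {n : ℕ}

theorem evalAt_C (s : Pt n) (c : MvPolynomial (Fin n) ℂ) :
    evalAt s (C c) = MvPolynomial.eval s.1 c := by
  simp [evalAt]

theorem evalAt_X (s : Pt n) : evalAt s (X : Poly n) = s.2 := by
  simp [evalAt]

theorem evalAt_eq (s : Pt n) (f : Poly n) :
    evalAt s f = (f.map (MvPolynomial.eval s.1)).eval s.2 := by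
  simp [evalAt, eval₂_eq_eval_map]

namespace Base

variable (B : Base n)

theorem prime : Prime B.P :=
  UniqueFactorizationMonoid.irreducible_iff_prime.mp B.irreducible

private theorem alg0_natDegree_pos : 0 < B.P.natDegree := by
  rcases Nat.eq_zero_or_pos B.P.natDegree with h | h
  · exact absurd (B.monic.natDegree_eq_zero.mp h ▸ B.irreducible) not_irreducible_one
  · exact h

private theorem alg0_natDegree_map (x : Fin n → ℂ) :
    (B.P.map (MvPolynomial.eval x)).natDegree = B.P.natDegree :=
  B.monic.natDegree_map _

/-- Above every `x` with `δ x ≠ 0` there are exactly `natDegree P` points. -/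
theorem card_roots (x : Fin n → ℂ) (hx : MvPolynomial.eval x B.δ ≠ 0) :
    (B.P.map (MvPolynomial.eval x)).roots.toFinset.card = B.P.natDegree := by
  classical
  have hnd : (B.P.map (MvPolynomial.eval x)).roots.Nodup := nodup_roots (B.separable x hx)
  rw [Multiset.toFinset_card_of_nodup hnd, ← alg0_natDegree_map B x]
  exact IsAlgClosed.card_roots_eq_natDegree

theorem mem_roots (x : Fin n → ℂ) (hx : MvPolynomial.eval x B.δ ≠ 0) (y : ℂ) :
    y ∈ (B.P.map (MvPolynomial.eval x)).roots.toFinset ↔ (x, y) ∈ B.pts := by
  have h0 : B.P.map (MvPolynomial.eval x) ≠ 0 := (B.monic.map _).ne_zero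
  rw [Multiset.mem_toFinset, Polynomial.mem_roots h0, IsRoot.def]
  constructor
  · intro h
    exact ⟨hx, by rw [evalAt_eq]; exact h⟩
  · rintro ⟨-, h⟩
    rw [evalAt_eq] at h
    exact h

/-- A polynomial vanishes on `S` iff it is divisible by `P`. -/
theorem dvd_iff (f : Poly n) : B.P ∣ f ↔ ∀ s ∈ B.pts, evalAt s f = 0 := by
  classical
  constructor
  · rintro ⟨g, rfl⟩ s hs
    rw [map_mul, hs.2, zero_mul]
  · intro h
    rw [← modByMonic_eq_zero_iff_dvd B.monic]
    set r : Poly n := f %ₘ B.P with hr
    have hdec : r + B.P * (f /ₘ B.P) = f := modByMonic_add_div f B.P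
    have hrs : ∀ s ∈ B.pts, evalAt s r = 0 := by
      intro s hs
      have h1 := h s hs
      rw [← hdec, map_add, map_mul, hs.2, zero_mul, add_zero] at h1
      exact h1
    have hdeg : r.natDegree < B.P.natDegree := by
      apply natDegree_modByMonic_lt f B.monic
      intro h1
      exact not_irreducible_one (h1 ▸ B.irreducible)
    have hmap : ∀ x : Fin n → ℂ, MvPolynomial.eval x B.δ ≠ 0 →
        r.map (MvPolynomial.eval x) = 0 := by
      intro x hx
      by_contra hne
      have hsub : (B.P.map (MvPolynomial.eval x)).roots.toFinset ⊆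
          (r.map (MvPolynomial.eval x)).roots.toFinset := by
        intro y hy
        have hy' := (B.mem_roots x hx y).mp hy
        rw [Multiset.mem_toFinset, Polynomial.mem_roots hne, IsRoot.def]
        have := hrs _ hy'
        rw [evalAt_eq] at this
        exact this
      have h1 := Finset.card_le_card hsub
      rw [B.card_roots x hx] at h1
      have h2 : (r.map (MvPolynomial.eval x)).roots.toFinset.card ≤ r.natDegree :=
        (Multiset.toFinset_card_le _).trans ((card_roots' _).trans natDegree_map_le)
      omega
    have hcoef : ∀ i, r.coeff i = 0 := by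
      intro i
      have h1 : r.coeff i * B.δ = 0 := by
        apply MvPolynomial.funext
        intro x
        rw [map_mul, map_zero]
        by_cases hx : MvPolynomial.eval x B.δ = 0
        · rw [hx, mul_zero]
        · have h2 := congrArg (fun q => q.coeff i) (hmap x hx)
          simp only [coeff_map, coeff_zero] at h2
          rw [h2, zero_mul]
      exact (mul_eq_zero.mp h1).resolve_right B.ne_zero
    exact Polynomial.ext (fun i => by rw [hcoef i, coeff_zero])

theorem pts_nonempty : B.pts.Nonempty := by
  classical
  obtain ⟨x, hx⟩ : ∃ x : Fin n → ℂ, MvPolynomial.eval x B.δ ≠ 0 := by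
    by_contra hcon
    push Not at hcon
    exact B.ne_zero (MvPolynomial.funext (fun x => by rw [hcon x, map_zero]))
  have hc := B.card_roots x hx
  have hp := alg0_natDegree_pos B
  obtain ⟨y, hy⟩ := Finset.card_pos.mp (hc ▸ hp)
  exact ⟨(x, y), (B.mem_roots x hx y).mp hy⟩

end Base

end MP_cb3775_ag
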