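import Pool.Agent.Lib.MP_cb3775_ag.B.Trb

/-!
# Algebraically independent functions have independent differentials at some point

PROOF. Take `exists_basis` and a point `s` of `S` with `evalAt s β ≠ 0`, a section `σ` through `s`
(`Base.section_exists`). For `x` near `s.1` the point `(x, σ x)` is in `S` and `β ≠ 0` there, so
`f b (x_b, z (x, σ x)) = 0` for all `x` near `s.1`. Differentiate in the direction `w`:
`(∂_none f b) * w b + ∑ k, (∂_k f b) * D z_k (w) = 0`. So if all `D z_k (w) = 0` then `w = 0`: the `n` linear
forms `D z_k` on `ℂ^n` have trivial common kernel, so they are linearly independent, and so is the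
subfamily `D y_j`.
-/

set_option autoImplicit false

namespace MP_cb3775_ag

open Filter Topology

variable {n : ℕ} {B : Base n}

/-- the chain rule for the value of a polynomial -/
private theorem jac_chain {ι : Type} [Fintype ι] [DecidableEq ι] {V : Type} [NormedAddCommGroup V]
    [NormedSpace ℂ V] (g : V → ι → ℂ) (g' : ι → V →L[ℂ] ℂ) (v : V)
    (hg : ∀ o, HasFDerivAt (fun x => g x o) (g' o) v) (p : MvPolynomial ι ℂ) :
    HasFDerivAt (fun x => MvPolynomial.eval (g x) p)
      (∑ o, MvPolynomial.eval (g v) (MvPolynomial.pderiv o p) • g' o) v := by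
  induction p using MvPolynomial.induction_on with
  | C a =>
    have e0 : (∑ o, MvPolynomial.eval (g v) (MvPolynomial.pderiv o (MvPolynomial.C a)) • g' o) = 0 :=
      Finset.sum_eq_zero fun o _ => by
        rw [MvPolynomial.pderiv_C, map_zero]
        exact zero_smul ℂ (g' o)
    rw [e0]
    have e1 : (fun x => MvPolynomial.eval (g x) (MvPolynomial.C a)) = fun _ : V => a := by
      funext x
      simp
    rw [e1]
    exact hasFDerivAt_const a v
  | add p q hp hq =>
    have e1 : (fun x => MvPolynomial.eval (g x) (p + q)) =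
        (fun x => MvPolynomial.eval (g x) p) + fun x => MvPolynomial.eval (g x) q := by
      funext x
      simp
    rw [e1]
    refine (hp.add hq).congr_fderiv ?_
    ext w
    simp only [map_add, ContinuousLinearMap.add_apply, ContinuousLinearMap.smul_apply,
      ContinuousLinearMap.sum_apply, smul_eq_mul, add_mul, Finset.sum_add_distrib]
  | mul_X p i hp =>
    have h1 := hp.mul (hg i)
    have e1 : (fun x => MvPolynomial.eval (g x) (p * MvPolynomial.X i)) =
        (fun x => MvPolynomial.eval (g x) p) * fun x => g x i := by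
      funext x
      simp
    rw [e1]
    refine h1.congr_fderiv ?_
    ext w
    simp only [MvPolynomial.pderiv_mul, MvPolynomial.pderiv_X, map_add, map_mul, MvPolynomial.eval_X,
      ContinuousLinearMap.add_apply, ContinuousLinearMap.smul_apply, ContinuousLinearMap.sum_apply,
      smul_eq_mul, add_mul, Finset.sum_add_distrib]
    have e2 : ∀ o : ι, MvPolynomial.eval (g v) p * MvPolynomial.eval (g v) (Pi.single (M := fun _ => MvPolynomial ι ℂ) o 1 i) * (g' o) w
        = if o = i then MvPolynomial.eval (g v) p * (g' i) w else 0 := by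
      intro o
      by_cases ho : o = i
      · subst ho; simp
      · rw [Pi.single_eq_of_ne (Ne.symm ho)]
        simp [ho]
    rw [Finset.sum_congr rfl fun o _ => e2 o, Finset.sum_ite_eq' Finset.univ i]
    simp only [Finset.mem_univ, if_true, Finset.mul_sum]
    rw [add_comm]
    congr 1
    exact Finset.sum_congr rfl fun o _ => by ring

theorem exists_indep_differentials {r : ℕ} (y : Fin r → Pt n → ℂ) (hy : ∀ j, B.IsRational (y j))
    (hol : ∀ j, ∀ s ∈ B.pts, B.HolAt (y j) s) (hind : B.AlgIndep y) :
    ∃ s ∈ B.pts, ∃ σ, B.IsSection s σ ∧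
      LinearIndependent ℂ (fun j => fderiv ℂ (fun x => y j (x, σ x)) s.1) := by
  obtain ⟨z, emb, β, f, hz1, hz2, ⟨s, hs, hβ⟩, hf⟩ := exists_basis y hy hol hind
  obtain ⟨σ, hσ⟩ := B.section_exists s hs
  refine ⟨s, hs, σ, hσ, ?_⟩
  -- the nearby points
  have hcont : Tendsto (fun x : Fin n → ℂ => ((x, σ x) : Pt n)) (𝓝 s.1) (𝓝 s) := by
    have h1 : Tendsto (fun x : Fin n → ℂ => ((x, σ x) : Pt n)) (𝓝 s.1) (𝓝 (s.1, σ s.1)) :=
      (continuousAt_id.prodMk hσ.1.continuousAt)
    rw [hσ.2.1] at h1
    exact h1
  have hβ' : ∀ᶠ x in 𝓝 s.1, evalAt ((x, σ x) : Pt n) β ≠ 0 :=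
    hcont.eventually ((analyticAt_evalAt β s).continuousAt.eventually_ne hβ)
  -- the functions in coordinates
  have hZ : ∀ k, DifferentiableAt ℂ (fun x => z k (x, σ x)) s.1 := by
    intro k
    by_cases hk : k ∈ Set.range emb
    · obtain ⟨j, rfl⟩ := hk
      rw [hz1 j]
      exact ((hol j s hs).comp_section hσ).differentiableAt
    · obtain ⟨a, ha⟩ := hz2 k hk
      rw [ha]
      exact differentiableAt_apply a s.1
  set D : Fin n → (Fin n → ℂ) →L[ℂ] ℂ := fun k => fderiv ℂ (fun x => z k (x, σ x)) s.1 with hD
  have hs1 : ((s.1, σ s.1) : Pt n) = s := by rw [hσ.2.1]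
  -- the relation between the differentials
  have hrel : ∀ (b : Fin n) (w : Fin n → ℂ), (∀ k, D k w = 0) → w b = 0 := by
    intro b w hw
    have h1 := jac_chain (ι := Option (Fin n)) (V := Fin n → ℂ)
      (fun x o => o.elim (x b) fun k => z k (x, σ x))
      (fun o => o.elim (ContinuousLinearMap.proj b) D) s.1 (by
        intro o
        cases o with
        | none => exact (ContinuousLinearMap.proj (R := ℂ) (φ := fun _ : Fin n => ℂ) b).hasFDerivAt
        | some k => exact (hZ k).hasFDerivAt) (f b)
    have h2 : HasFDerivAt (fun x : Fin n → ℂ => MvPolynomial.eval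
        (fun o : Option (Fin n) => o.elim (x b) fun k => z k (x, σ x)) (f b))
        (0 : (Fin n → ℂ) →L[ℂ] ℂ) s.1 := by
      refine (hasFDerivAt_const (0 : ℂ) s.1).congr_of_eventuallyEq ?_
      filter_upwards [hβ', hσ.eventually_mem] with x hx hxm
      exact (hf (x, σ x) hxm hx b).1
    have h3 := congrArg (fun L : (Fin n → ℂ) →L[ℂ] ℂ => L w) (h1.unique h2)
    simp only [ContinuousLinearMap.sum_apply, ContinuousLinearMap.smul_apply, smul_eq_mul,
      ContinuousLinearMap.zero_apply, ContinuousLinearMap.add_apply, Fintype.sum_option,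
      Option.elim_none, Option.elim_some, hw, mul_zero,
      Finset.sum_const_zero, add_zero, ContinuousLinearMap.proj_apply] at h3
    have h4 := (hf s hs hβ b).2
    rw [hs1] at h3
    exact (mul_eq_zero.1 h3).resolve_left h4
  -- linear independence
  have hinj : Function.Injective (LinearMap.pi fun k => (D k : (Fin n → ℂ) →ₗ[ℂ] ℂ)) := by
    rw [← LinearMap.ker_eq_bot, LinearMap.ker_eq_bot']
    intro w hw
    funext b
    refine hrel b w fun k => ?_
    have := congrFun hw k
    simpa using this
  have hsurj := LinearMap.surjective_of_injective hinj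
  have hlin : LinearIndependent ℂ D := by
    rw [Fintype.linearIndependent_iff]
    intro c hc k
    obtain ⟨w, hw⟩ := hsurj (Pi.single k 1)
    have h1 := congrArg (fun L : (Fin n → ℂ) →L[ℂ] ℂ => L w) hc
    simp only [ContinuousLinearMap.sum_apply, ContinuousLinearMap.smul_apply, smul_eq_mul,
      ContinuousLinearMap.zero_apply] at h1
    have h2 : ∀ i, D i w = Pi.single (M := fun _ => ℂ) k 1 i := by
      intro i
      have := congrFun hw i
      simpa using this
    simp only [h2] at h1
    rw [Finset.sum_eq_single k] at h1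
    · simpa using h1
    · intro i _ hi
      simp [hi]
    · intro h; exact absurd (Finset.mem_univ k) h
  have h5 := hlin.comp emb emb.injective
  have h6 : (D ∘ emb) = fun j => fderiv ℂ (fun x => y j (x, σ x)) s.1 := by
    funext j
    simp only [hD, Function.comp]
    rw [hz1 j]
  rw [← h6]
  exact h5

end MP_cb3775_ag
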