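import Pool.Agent.Lib.MP_cb3775_ag.B.Alg

/-!
# Local sections of `S -> C^n`

Hints. `section_exists`: inverse function theorem for `(x, y) ↦ (x, P x y)` at `s` (its derivative is
invertible by `deriv_ne`); `HasStrictFDerivAt.toOpenPartialHomeomorph` and
`OpenPartialHomeomorph.analyticAt_symm'` give an analytic local inverse; `σ x` = second component of the
inverse at `(x, 0)`. `IsSection` is the package used everywhere.
-/

set_option autoImplicit false

namespace MP_cb3775_ag

open Filter Topology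

variable {n : ℕ}

theorem analyticAt_mvEval {m : ℕ} (f : MvPolynomial (Fin m) ℂ) (x : Fin m → ℂ) :
    AnalyticAt ℂ (fun t => MvPolynomial.eval t f) x :=
  AnalyticOnNhd.eval_mvPolynomial f x (Set.mem_univ _)

/-- Values of polynomials are analytic on the ambient space. -/
theorem analyticAt_evalAt (f : Poly n) (s : Pt n) : AnalyticAt ℂ (fun t => evalAt t f) s := by
  induction f using Polynomial.induction_on' with
  | add p q hp hq =>
    have : (fun t => evalAt t (p + q)) = fun t => evalAt t p + evalAt t q := by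
      funext t; rw [map_add]
    rw [this]
    exact hp.add hq
  | monomial k a =>
    have : (fun t : Pt n => evalAt t (Polynomial.monomial k a)) =
        fun t => MvPolynomial.eval t.1 a * t.2 ^ k := by
      funext t
      simp [evalAt]
    rw [this]
    exact ((analyticAt_mvEval a s.1).comp' analyticAt_fst).mul (analyticAt_snd.pow k)

namespace Base

variable (B : Base n)

/-- `σ` is a local section of `S -> C^n` through the point `s`, and near `s` the variety is its graph. -/
def IsSection (s : Pt n) (σ : (Fin n → ℂ) → ℂ) : Prop :=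
  AnalyticAt ℂ σ s.1 ∧ σ s.1 = s.2 ∧ ∀ᶠ t in 𝓝 s, (t ∈ B.pts ↔ t.2 = σ t.1)

private theorem sec0_deriv (s : Pt n) :
    (fderiv ℂ (fun t => evalAt t B.P) s) ((0 : Fin n → ℂ), (1 : ℂ)) =
      evalAt s (Polynomial.derivative B.P) := by
  have h1 : HasFDerivAt (fun t => evalAt t B.P) (fderiv ℂ (fun t => evalAt t B.P) s) (s.1, s.2) :=
    (analyticAt_evalAt B.P s).differentiableAt.hasFDerivAt
  have h2 : HasDerivAt (fun y : ℂ => ((s.1, y) : Pt n)) ((0 : Fin n → ℂ), (1 : ℂ)) s.2 :=
    (hasDerivAt_const s.2 s.1).prodMk (hasDerivAt_id s.2)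
  have h3 : HasDerivAt (fun y : ℂ => evalAt ((s.1, y) : Pt n) B.P)
      ((fderiv ℂ (fun t => evalAt t B.P) s) ((0 : Fin n → ℂ), (1 : ℂ))) s.2 :=
    HasFDerivAt.comp_hasDerivAt s.2 h1 h2
  have h4 : HasDerivAt (fun y : ℂ => evalAt ((s.1, y) : Pt n) B.P)
      (evalAt s (Polynomial.derivative B.P)) s.2 := by
    have e1 : (fun y : ℂ => evalAt ((s.1, y) : Pt n) B.P) =
        fun y => (B.P.map (MvPolynomial.eval s.1)).eval y := by
      funext y
      exact evalAt_eq ((s.1, y) : Pt n) B.P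
    rw [e1, evalAt_eq, ← Polynomial.derivative_map]
    exact (B.P.map (MvPolynomial.eval s.1)).hasDerivAt s.2
  exact h3.unique h4

theorem section_exists (s : Pt n) (hs : s ∈ B.pts) : ∃ σ, B.IsSection s σ := by
  set L : Pt n →L[ℂ] ℂ := fderiv ℂ (fun t => evalAt t B.P) s with hL
  set d : ℂ := evalAt s (Polynomial.derivative B.P) with hd
  have hd0 : d ≠ 0 := B.deriv_ne s hs
  have hL1 : ∀ (u : Fin n → ℂ) (w : ℂ), L (u, w) = L (u, 0) + w * d := by
    intro u w
    have e1 : ((u, w) : Pt n) = (u, 0) + w • ((0 : Fin n → ℂ), (1 : ℂ)) := by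
      simp
    rw [e1, map_add, map_smul, B.sec0_deriv s, smul_eq_mul]
  set F : Pt n → Pt n := fun t => (t.1, evalAt t B.P) with hF
  have hFan : AnalyticAt ℂ F s := analyticAt_fst.prod (analyticAt_evalAt B.P s)
  set f1 : Pt n →L[ℂ] Pt n := (ContinuousLinearMap.fst ℂ (Fin n → ℂ) ℂ).prod L with hf1
  set f2 : Pt n →L[ℂ] Pt n := (ContinuousLinearMap.fst ℂ (Fin n → ℂ) ℂ).prod
    (d⁻¹ • (ContinuousLinearMap.snd ℂ (Fin n → ℂ) ℂ -
      L.comp ((ContinuousLinearMap.inl ℂ (Fin n → ℂ) ℂ).comp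
        (ContinuousLinearMap.fst ℂ (Fin n → ℂ) ℂ)))) with hf2
  have h21 : Function.LeftInverse f2 f1 := by
    rintro ⟨u, w⟩
    have : d⁻¹ * (L (u, w) - L (u, 0)) = w := by
      rw [hL1 u w]; field_simp; ring
    simpa [hf1, hf2] using this
  have h12 : Function.RightInverse f2 f1 := by
    rintro ⟨u, w⟩
    have : L (u, d⁻¹ * (w - L (u, 0))) = w := by
      rw [hL1 u (d⁻¹ * (w - L (u, 0)))]; field_simp; ring
    simpa [hf1, hf2] using this
  set i : Pt n ≃L[ℂ] Pt n := ContinuousLinearEquiv.equivOfInverse f1 f2 h21 h12 with hi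
  have hfd : fderiv ℂ F s = (i : Pt n →L[ℂ] Pt n) := by
    have h1 : HasFDerivAt F ((ContinuousLinearMap.fst ℂ (Fin n → ℂ) ℂ).prod L) s :=
      hasFDerivAt_fst.prodMk (analyticAt_evalAt B.P s).differentiableAt.hasFDerivAt
    rw [h1.fderiv]
    ext x <;> rfl
  have hstr : HasStrictFDerivAt F (i : Pt n →L[ℂ] Pt n) s := by
    rw [← hfd]; exact hFan.hasStrictFDerivAt
  set f : OpenPartialHomeomorph (Pt n) (Pt n) := hstr.toOpenPartialHomeomorph F with hf
  have hcoe : (f : Pt n → Pt n) = F := hstr.toOpenPartialHomeomorph_coe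
  have hsrc : s ∈ f.source := hstr.mem_toOpenPartialHomeomorph_source
  have hPs : evalAt s B.P = 0 := hs.2
  have hFs : f s = (s.1, 0) := by
    rw [hcoe]
    show (s.1, evalAt s B.P) = (s.1, (0 : ℂ))
    rw [hPs]
  have hinv : AnalyticAt ℂ f.symm (s.1, 0) := by
    rw [← hFs]
    refine f.analyticAt_symm' (i := i) hsrc ?_ ?_
    · rw [hcoe]; exact hFan
    · rw [hcoe]; exact hfd
  have hin : AnalyticAt ℂ (fun x : Fin n → ℂ => ((x, 0) : Pt n)) s.1 :=
    analyticAt_id.prod analyticAt_const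
  refine ⟨fun x => (f.symm (x, 0)).2, ?_, ?_, ?_⟩
  · have h1 : AnalyticAt ℂ (fun x : Fin n → ℂ => f.symm (x, 0)) s.1 :=
      AnalyticAt.comp' (f := fun x : Fin n → ℂ => ((x, 0) : Pt n)) hinv hin
    exact analyticAt_snd.comp' h1
  · show (f.symm (s.1, 0)).2 = s.2
    rw [← hFs, f.left_inv hsrc]
  · have e1 : ∀ᶠ t in 𝓝 s, t ∈ f.source := f.open_source.mem_nhds hsrc
    have e2 : ∀ᶠ t in 𝓝 s, MvPolynomial.eval t.1 B.δ ≠ 0 := by
      have hc : ContinuousAt (fun t : Pt n => MvPolynomial.eval t.1 B.δ) s :=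
        ((analyticAt_mvEval B.δ s.1).comp' analyticAt_fst).continuousAt
      exact hc.eventually_ne hs.1
    have e3 : ∀ᶠ t in 𝓝 s, ((t.1, 0) : Pt n) ∈ f.target := by
      have hc : ContinuousAt (fun t : Pt n => ((t.1, 0) : Pt n)) s :=
        continuousAt_fst.prodMk continuousAt_const
      refine hc.eventually (f.open_target.mem_nhds ?_)
      show ((s.1, 0) : Pt n) ∈ f.target
      rw [← hFs]; exact f.map_source hsrc
    filter_upwards [e1, e2, e3] with t h1 h2 h3
    constructor
    · intro ht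
      have hFt : f t = (t.1, 0) := by
        rw [hcoe]
        show (t.1, evalAt t B.P) = (t.1, (0 : ℂ))
        rw [ht.2]
      show t.2 = (f.symm (t.1, 0)).2
      rw [← hFt, f.left_inv h1]
    · intro ht
      have hu : f (f.symm (t.1, 0)) = (t.1, 0) := f.right_inv h3
      rw [hcoe] at hu
      have hu1 : (f.symm (t.1, 0)).1 = t.1 := by
        have h : (F (f.symm (t.1, 0))).1 = ((t.1, 0) : Pt n).1 := by rw [hu]
        exact h
      have hu2 : evalAt (f.symm (t.1, 0)) B.P = 0 := by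
        have h : (F (f.symm (t.1, 0))).2 = ((t.1, 0) : Pt n).2 := by rw [hu]
        exact h
      have hut : f.symm (t.1, 0) = t := Prod.ext hu1 ht.symm
      rw [hut] at hu2
      exact ⟨h2, hu2⟩

end Base

end MP_cb3775_ag
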