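import Pool.Agent.Lib.MP_cb3775_ag.B.Sec0

/-!
# Local sections of `S -> C^n`, holomorphic functions on `S` in local coordinates
-/

set_option autoImplicit false

namespace MP_cb3775_ag

open Filter Topology

variable {n : ℕ}

namespace Base

variable {B : Base n}

private theorem sect_tendsto {s : Pt n} {σ : (Fin n → ℂ) → ℂ} (h : B.IsSection s σ) :
    Tendsto (fun x : Fin n → ℂ => ((x, σ x) : Pt n)) (𝓝 s.1) (𝓝 s) := by
  have h1 : Tendsto (fun x : Fin n → ℂ => ((x, σ x) : Pt n)) (𝓝 s.1) (𝓝 (s.1, σ s.1)) :=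
    (continuousAt_id.prodMk h.1.continuousAt)
  rw [h.2.1] at h1
  exact h1

theorem IsSection.eventually_mem {s : Pt n} {σ : (Fin n → ℂ) → ℂ} (h : B.IsSection s σ) :
    ∀ᶠ x in 𝓝 s.1, (x, σ x) ∈ B.pts := by
  filter_upwards [(sect_tendsto h).eventually h.2.2] with x hx
  exact hx.2 rfl

private theorem sect_tendsto_within {s : Pt n} {σ : (Fin n → ℂ) → ℂ} (h : B.IsSection s σ) :
    Tendsto (fun x : Fin n → ℂ => ((x, σ x) : Pt n)) (𝓝 s.1) (𝓝[B.pts] s) :=
  tendsto_nhdsWithin_iff.2 ⟨sect_tendsto h, h.eventually_mem⟩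

/-- A section through `s` is a section through the nearby points of its graph. -/
theorem IsSection.eventually {s : Pt n} {σ : (Fin n → ℂ) → ℂ} (h : B.IsSection s σ) :
    ∀ᶠ x in 𝓝 s.1, B.IsSection (x, σ x) σ := by
  filter_upwards [h.1.eventually_analyticAt,
    (sect_tendsto h).eventually h.2.2.eventually_nhds] with x hx hx'
  exact ⟨hx, rfl, hx'⟩

/-- Holomorphic functions on `S` are analytic in the coordinates given by a section. -/
theorem HolAt.comp_section {E : Type} [NormedAddCommGroup E] [NormedSpace ℂ E] {f : Pt n → E}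
    {s : Pt n} {σ : (Fin n → ℂ) → ℂ} (hf : B.HolAt f s) (h : B.IsSection s σ) :
    AnalyticAt ℂ (fun x => f (x, σ x)) s.1 := by
  obtain ⟨g, hg, hfg⟩ := hf
  have h1 : AnalyticAt ℂ (fun x : Fin n → ℂ => ((x, σ x) : Pt n)) s.1 :=
    analyticAt_id.prod h.1
  have h3 : (fun x : Fin n → ℂ => ((x, σ x) : Pt n)) s.1 = s := by
    show ((s.1, σ s.1) : Pt n) = s
    rw [h.2.1]
  have h2 : AnalyticAt ℂ (fun x : Fin n → ℂ => g (x, σ x)) s.1 :=
    AnalyticAt.comp_of_eq (g := g) (f := fun x : Fin n → ℂ => ((x, σ x) : Pt n)) hg h1 h3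
  refine h2.congr ?_
  filter_upwards [(sect_tendsto_within h).eventually hfg] with x hx
  exact hx.symm

/-- and conversely. -/
theorem holAt_of_comp_section {E : Type} [NormedAddCommGroup E] [NormedSpace ℂ E] {f : Pt n → E}
    {s : Pt n} {σ : (Fin n → ℂ) → ℂ} (h : B.IsSection s σ)
    (hf : AnalyticAt ℂ (fun x => f (x, σ x)) s.1) : B.HolAt f s := by
  refine ⟨fun t => f (t.1, σ t.1), ?_, ?_⟩
  · have h1 : AnalyticAt ℂ (fun t : Pt n => t.1) s := analyticAt_fst
    exact AnalyticAt.fun_comp (g := fun x : Fin n → ℂ => f (x, σ x)) hf h1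
  · rw [_root_.eventually_nhdsWithin_iff]
    filter_upwards [h.2.2] with t ht hts
    have h2 : t.2 = σ t.1 := ht.1 hts
    show f t = f (t.1, σ t.1)
    rw [← h2]

/-- Holomorphic at a point of `S` implies holomorphic at the nearby points. -/
theorem HolAt.eventually {E : Type} [NormedAddCommGroup E] [NormedSpace ℂ E] [CompleteSpace E]
    {f : Pt n → E}
    {s : Pt n} (hf : B.HolAt f s) (hs : s ∈ B.pts) : ∀ᶠ t in 𝓝[B.pts] s, B.HolAt f t := by
  obtain ⟨g, hg, hfg⟩ := hf
  filter_upwards [eventually_nhdsWithin_of_eventually_nhds hg.eventually_analyticAt,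
    eventually_eventually_nhdsWithin.2 hfg] with t h1 h2
  exact ⟨g, h1, h2⟩

/-- Neighbourhoods in `S` in terms of a section. -/
theorem eventually_nhdsWithin_iff {s : Pt n} {σ : (Fin n → ℂ) → ℂ} (h : B.IsSection s σ)
    (p : Pt n → Prop) : (∀ᶠ t in 𝓝[B.pts] s, p t) ↔ ∀ᶠ x in 𝓝 s.1, p (x, σ x) := by
  constructor
  · intro hp
    exact (sect_tendsto_within h).eventually hp
  · intro hp
    rw [_root_.eventually_nhdsWithin_iff]
    have h1 : Tendsto (fun t : Pt n => t.1) (𝓝 s) (𝓝 s.1) := continuous_fst.continuousAt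
    filter_upwards [h.2.2, h1.eventually hp] with t ht hpt hts
    have h2 : t.2 = σ t.1 := ht.1 hts
    rw [← h2] at hpt
    exact hpt

/-- The complement of a proper closed subvariety is dense in `S`. -/
theorem mem_closure_ne (β : Poly n) (h : ∃ s ∈ B.pts, evalAt s β ≠ 0) (s : Pt n)
    (hs : s ∈ B.pts) : s ∈ closure {t ∈ B.pts | evalAt t β ≠ 0} := by
  obtain ⟨c, γ, hc, hcγ⟩ := B.norm_exists β h
  obtain ⟨σ, hσ⟩ := B.section_exists s hs
  rw [mem_closure_iff_frequently]
  intro hcon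
  apply hc
  have h1 : ∀ᶠ x in 𝓝 s.1, MvPolynomial.eval x c = 0 := by
    filter_upwards [(sect_tendsto hσ).eventually hcon, hσ.eventually_mem] with x hx hxm
    have h2 : evalAt ((x, σ x) : Pt n) β = 0 := by
      by_contra h3
      exact hx ⟨hxm, h3⟩
    have h4 := hcγ _ hxm
    rw [h2, zero_mul] at h4
    exact h4
  have h5 : AnalyticOnNhd ℂ (fun x => MvPolynomial.eval x c) Set.univ :=
    fun x _ => analyticAt_mvEval c x
  have h6 := h5.eqOn_zero_of_preconnected_of_eventuallyEq_zero isPreconnected_univ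
    (Set.mem_univ s.1) h1
  refine MvPolynomial.funext fun x => ?_
  rw [map_zero]
  exact h6 (Set.mem_univ x)

/-- Two functions continuous on `S` which agree outside a proper closed subvariety agree. -/
theorem eq_of_eq_on_ne (β : Poly n) (h : ∃ s ∈ B.pts, evalAt s β ≠ 0) (f g : Pt n → ℂ)
    (hf : ContinuousOn f B.pts) (hg : ContinuousOn g B.pts)
    (hfg : ∀ s ∈ B.pts, evalAt s β ≠ 0 → f s = g s) : ∀ s ∈ B.pts, f s = g s := by
  intro s hs
  have h1 := mem_closure_ne β h s hs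
  rw [mem_closure_iff_nhdsWithin_neBot] at h1
  have hsub : {t ∈ B.pts | evalAt t β ≠ 0} ⊆ B.pts := fun t ht => ht.1
  have h2 : Tendsto f (𝓝[{t ∈ B.pts | evalAt t β ≠ 0}] s) (𝓝 (f s)) := (hf s hs).mono hsub
  have h3 : Tendsto g (𝓝[{t ∈ B.pts | evalAt t β ≠ 0}] s) (𝓝 (g s)) := (hg s hs).mono hsub
  refine tendsto_nhds_unique_of_eventuallyEq h2 h3 ?_
  filter_upwards [self_mem_nhdsWithin] with t ht
  exact hfg t ht.1 ht.2

theorem HolAt.continuousWithinAt {E : Type} [NormedAddCommGroup E] [NormedSpace ℂ E]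
    {f : Pt n → E} {s : Pt n} (hf : B.HolAt f s) (hs : s ∈ B.pts) :
    ContinuousWithinAt f B.pts s := by
  obtain ⟨g, hg, hfg⟩ := hf
  exact hg.continuousAt.continuousWithinAt.congr_of_eventuallyEq hfg (hfg.self_of_nhdsWithin hs)

end Base

end MP_cb3775_ag
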