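import Pool.Agent.Lib.MP_cb3775_ag.B.Sect

/-!
# A transcendence basis of the function field containing given functions

Hints. `K = FractionRing (AdjoinRoot B.P)`, `κ j ∈ K` the quotient `α j / β j` (from `IsRational`). `AlgIndep`
gives `AlgebraicIndependent ℂ κ` (if `f (κ) = 0` then `f (y s) = 0` at the points with all `β j ≠ 0`;
multiply by the product of the `β j` to get it on all of `S` after clearing denominators; here use
`B.eq_of_eq_on_ne` or: the function `s ↦ f (y s)` is continuous on `S` and vanishes outside a proper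
closed subvariety; continuity follows from `hol`). `K` is algebraic over `ℂ(x_1..x_n)`, so `κ` extends to a
transcendence basis by some of the `x_a` (`exists_isTranscendenceBasis_between`), it has `n` elements because
`x_1, .., x_n` is a transcendence basis as well. For every `b` the element `x_b` is algebraic over `ℂ(z)`: choose
`f b : MvPolynomial (Option (Fin n)) ℂ`, `f b ≠ 0`, of minimal total degree with
`f b (x_b, z) = 0` in `K`; then `pderiv none (f b)` does not vanish at `(x_b, z)`: otherwise it is `0` by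
minimality, so `f b` does not involve the variable `none`, against the independence of `z`.
At the end collect all denominators and the numerators of the `pderiv none (f b) (x_b, z)` in one `β`.
-/

set_option autoImplicit false

namespace MP_cb3775_ag

open Filter Topology

variable {n : ℕ} {B : Base n}

theorem trb_tdeg {σ : Type} (i : σ) (f : MvPolynomial σ ℂ) (h : MvPolynomial.pderiv i f ≠ 0) :
    (MvPolynomial.pderiv i f).totalDegree < f.totalDegree := by
  classical
  have hne : (MvPolynomial.pderiv i f).support.Nonempty := by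
    rw [Finset.nonempty_iff_ne_empty]
    exact fun h1 => h (MvPolynomial.support_eq_empty.1 h1)
  obtain ⟨m, hm, hmax⟩ := Finset.exists_mem_eq_sup _ hne
    (fun m : σ →₀ ℕ => m.sum fun _ e => e)
  have h1 : MvPolynomial.coeff (m + Finsupp.single i 1) f ≠ 0 := by
    intro h2
    rw [MvPolynomial.mem_support_iff, MvPolynomial.coeff_pderiv, h2, zero_mul] at hm
    exact hm rfl
  have h2 := MvPolynomial.le_totalDegree (MvPolynomial.mem_support_iff.2 h1)
  have h3 : (MvPolynomial.pderiv i f).totalDegree = m.sum fun _ e => e := hmax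
  rw [h3]
  have h4 : ((m + Finsupp.single i 1).sum fun _ e => e) = (m.sum fun _ e => e) + 1 := by
    rw [Finsupp.sum_add_index' (fun _ => rfl) (fun _ _ _ => rfl), Finsupp.sum_single_index rfl]
  omega

theorem trb_rename {ι : Type} (f : MvPolynomial (Option ι) ℂ)
    (h : MvPolynomial.pderiv none f = 0) : ∃ g : MvPolynomial ι ℂ, MvPolynomial.rename some g = f := by
  classical
  refine MvPolynomial.exists_rename_eq_of_vars_subset_range f some (Option.some_injective _) ?_
  intro v hv
  rcases v with _ | v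
  · exfalso
    obtain ⟨m, hm, hm0⟩ := (MvPolynomial.mem_vars_iff_mem_support _).1 (Finset.mem_coe.1 hv)
    have h1 : m none ≠ 0 := by simpa using hm0
    have h2 : (m - Finsupp.single none 1) + Finsupp.single none 1 = m := by
      ext a
      by_cases ha : a = none
      · subst ha
        simp
        omega
      · simp [Ne.symm ha]
    have h3 := MvPolynomial.coeff_pderiv (i := none) f (m - Finsupp.single none 1)
    rw [h, h2, MvPolynomial.coeff_zero] at h3
    rcases mul_eq_zero.1 h3.symm with h4 | h4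
    · exact (MvPolynomial.mem_support_iff.1 hm) h4
    · exact Nat.cast_add_one_ne_zero _ h4
  · exact ⟨v, rfl⟩

theorem trb_alg {K : Type} [Field K] [Algebra ℂ K] {n r : ℕ} {x : Fin n → K}
    (hx : IsTranscendenceBasis ℂ x) {κ : Fin r → K} (hκ : AlgebraicIndependent ℂ κ) :
    ∃ (z : Fin n → K) (emb : Fin r ↪ Fin n) (f : Fin n → MvPolynomial (Option (Fin n)) ℂ),
      (∀ j, z (emb j) = κ j) ∧ (∀ k, k ∉ Set.range emb → ∃ a, z k = x a) ∧
      ∀ b, MvPolynomial.aeval (fun o : Option (Fin n) => o.elim (x b) z) (f b) = 0 ∧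
        MvPolynomial.aeval (fun o : Option (Fin n) => o.elim (x b) z)
          (MvPolynomial.pderiv none (f b)) ≠ 0 := by
  classical
  have halg : Algebra.IsAlgebraic (Algebra.adjoin ℂ (Set.range κ ∪ Set.range x)) K := by
    have le : Algebra.adjoin ℂ (Set.range x) ≤ Algebra.adjoin ℂ (Set.range κ ∪ Set.range x) :=
      Algebra.adjoin_mono Set.subset_union_right
    let _ : Algebra (Algebra.adjoin ℂ (Set.range x))
      (Algebra.adjoin ℂ (Set.range κ ∪ Set.range x)) := (Subalgebra.inclusion le).toAlgebra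
    have : IsScalarTower (Algebra.adjoin ℂ (Set.range x))
      (Algebra.adjoin ℂ (Set.range κ ∪ Set.range x)) K := .of_algebraMap_eq fun _ => rfl
    have := hx.isAlgebraic
    exact .extendScalars (Subalgebra.inclusion_injective le)
  have hs : AlgebraicIndepOn ℂ id (Set.range κ) :=
    (algebraicIndependent_subtype_range hκ.injective).2 hκ
  obtain ⟨u, hu1, hu2, hu⟩ := exists_isTranscendenceBasis_between (Set.range κ)
    (Set.range κ ∪ Set.range x) Set.subset_union_left hs
  obtain ⟨e⟩ := Cardinal.eq.1 (hx.cardinalMk_eq hu)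
  have hz : IsTranscendenceBasis ℂ (fun k => (e k : K)) := (isTranscendenceBasis_equiv e).2 hu
  have hemb : Function.Injective fun j : Fin r => e.symm ⟨κ j, hu1 ⟨j, rfl⟩⟩ := by
    intro i j hij
    have h1 := e.symm.injective hij
    exact hκ.injective (congrArg Subtype.val h1)
  have hf : ∀ b, ∃ f : MvPolynomial (Option (Fin n)) ℂ,
      MvPolynomial.aeval (fun o : Option (Fin n) => o.elim (x b) fun k => (e k : K)) f = 0 ∧
        MvPolynomial.aeval (fun o : Option (Fin n) => o.elim (x b) fun k => (e k : K))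
          (MvPolynomial.pderiv none f) ≠ 0 := by
    intro b
    have hnot : ¬ AlgebraicIndependent ℂ
        (fun o : Option (Fin n) => o.elim (x b) fun k => (e k : K)) := by
      rw [hz.1.option_iff_transcendental (x b)]
      exact fun h => h (hz.isAlgebraic.1 (x b))
    rw [algebraicIndependent_iff] at hnot
    push Not at hnot
    obtain ⟨f0, hf0, hf0'⟩ := hnot
    obtain ⟨f, ⟨hf1, hf2⟩, hmin⟩ := (measure
      (fun f : MvPolynomial (Option (Fin n)) ℂ => f.totalDegree)).wf.has_min
      {f | MvPolynomial.aeval (fun o : Option (Fin n) => o.elim (x b) fun k => (e k : K)) f = 0 ∧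
        f ≠ 0} ⟨f0, hf0, hf0'⟩
    refine ⟨f, hf1, fun h => ?_⟩
    by_cases hp : MvPolynomial.pderiv none f = 0
    · obtain ⟨g, rfl⟩ := trb_rename f hp
      rw [MvPolynomial.aeval_rename] at hf1
      have h1 : g = 0 := by
        apply algebraicIndependent_iff.1 hz.1
        exact hf1
      exact hf2 (by rw [h1, map_zero])
    · exact hmin _ ⟨h, hp⟩ (trb_tdeg none f hp)
  choose f hf1 hf2 using hf
  refine ⟨fun k => (e k : K), ⟨_, hemb⟩, f, ?_, ?_, fun b => ⟨hf1 b, hf2 b⟩⟩
  · intro j
    change ((e (e.symm ⟨κ j, hu1 ⟨j, rfl⟩⟩) : u) : K) = κ j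
    rw [Equiv.apply_symm_apply]
  · intro k hk
    rcases hu2 (e k).2 with ⟨j, hj⟩ | ⟨a, ha⟩
    · exfalso
      apply hk
      refine ⟨j, ?_⟩
      change e.symm ⟨κ j, hu1 ⟨j, rfl⟩⟩ = k
      rw [Equiv.symm_apply_eq]
      exact Subtype.ext hj
    · exact ⟨a, ha.symm⟩

/-- The coordinate ring. -/
abbrev TrbR (B : Base n) : Type := AdjoinRoot B.P

instance trbR_domain (B : Base n) : IsDomain (TrbR B) := AdjoinRoot.isDomain_of_prime B.prime

/-- The function field. -/
abbrev TrbK (B : Base n) : Type := FractionRing (TrbR B)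

/-- A polynomial as a rational function. -/
noncomputable def trbi (B : Base n) : Poly n →+* TrbK B :=
  (algebraMap (TrbR B) (TrbK B)).comp (AdjoinRoot.mk B.P)

theorem trbi_eq_zero (f : Poly n) : trbi B f = 0 ↔ ∀ s ∈ B.pts, evalAt s f = 0 := by
  rw [← B.dvd_iff, ← AdjoinRoot.mk_eq_zero]
  exact map_eq_zero_iff _ (IsFractionRing.injective (TrbR B) (TrbK B))

theorem trbi_ne_zero (f : Poly n) : trbi B f ≠ 0 ↔ ∃ s ∈ B.pts, evalAt s f ≠ 0 := by
  rw [Ne, trbi_eq_zero]
  push Not
  rfl

theorem trb_frac (k : TrbK B) : ∃ a b : Poly n, trbi B b ≠ 0 ∧ k * trbi B b = trbi B a := by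
  obtain ⟨a, b, hb, hk⟩ := IsFractionRing.div_surjective (A := TrbR B) k
  obtain ⟨a', rfl⟩ := AdjoinRoot.mk_surjective a
  obtain ⟨b', rfl⟩ := AdjoinRoot.mk_surjective b
  have hb0 : algebraMap (TrbR B) (TrbK B) (AdjoinRoot.mk B.P b') ≠ 0 := by
    rw [Ne, map_eq_zero_iff _ (IsFractionRing.injective (TrbR B) (TrbK B))]
    exact nonZeroDivisors.ne_zero hb
  refine ⟨a', b', hb0, ?_⟩
  rw [← hk]
  exact div_mul_cancel₀ _ hb0

/-- `v` is the value of the rational function `k` at `s`. -/
def TrbEv (B : Base n) (s : Pt n) (k : TrbK B) (v : ℂ) : Prop :=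
  ∃ a b : Poly n, evalAt s b ≠ 0 ∧ k * trbi B b = trbi B a ∧ v * evalAt s b = evalAt s a

theorem TrbEv.uniq {s : Pt n} (hs : s ∈ B.pts) {k : TrbK B} {v w : ℂ} (h : TrbEv B s k v)
    (h' : TrbEv B s k w) : v = w := by
  obtain ⟨a, b, hb, hk, hv⟩ := h
  obtain ⟨a', b', hb', hk', hw⟩ := h'
  have h1 : trbi B (a * b' - a' * b) = 0 := by
    rw [map_sub, map_mul, map_mul, ← hk, ← hk']
    ring
  have h2 := (trbi_eq_zero _).1 h1 s hs
  rw [map_sub, map_mul, map_mul, ← hv, ← hw] at h2
  have h3 : (v - w) * (evalAt s b * evalAt s b') = 0 := by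
    rw [← h2]
    ring
  rcases mul_eq_zero.1 h3 with h4 | h4
  · exact sub_eq_zero.1 h4
  · exact absurd h4 (mul_ne_zero hb hb')

theorem TrbEv.add {s : Pt n} {k l : TrbK B} {v w : ℂ} (h : TrbEv B s k v)
    (h' : TrbEv B s l w) : TrbEv B s (k + l) (v + w) := by
  obtain ⟨a, b, hb, hk, hv⟩ := h
  obtain ⟨a', b', hb', hk', hw⟩ := h'
  refine ⟨a * b' + a' * b, b * b', by rw [map_mul]; exact mul_ne_zero hb hb', ?_, ?_⟩
  · rw [map_add, map_mul, map_mul, map_mul, ← hk, ← hk']
    ring
  · rw [map_add, map_mul, map_mul, map_mul, ← hv, ← hw]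
    ring

theorem TrbEv.mul {s : Pt n} {k l : TrbK B} {v w : ℂ} (h : TrbEv B s k v)
    (h' : TrbEv B s l w) : TrbEv B s (k * l) (v * w) := by
  obtain ⟨a, b, hb, hk, hv⟩ := h
  obtain ⟨a', b', hb', hk', hw⟩ := h'
  refine ⟨a * a', b * b', by rw [map_mul]; exact mul_ne_zero hb hb', ?_, ?_⟩
  · rw [map_mul, map_mul, ← hk, ← hk']
    ring
  · rw [map_mul, map_mul, ← hv, ← hw]
    ring

theorem trbEv_of (s : Pt n) (a : Poly n) : TrbEv B s (trbi B a) (evalAt s a) :=
  ⟨a, 1, by rw [map_one]; exact one_ne_zero, by rw [map_one, mul_one], by rw [map_one, mul_one]⟩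

theorem trbi_C (c : ℂ) : trbi B (Polynomial.C (MvPolynomial.C c)) = algebraMap ℂ (TrbK B) c := by
  rw [IsScalarTower.algebraMap_apply ℂ (TrbR B) (TrbK B)]
  rfl

theorem trbEv_C (s : Pt n) (c : ℂ) : TrbEv B s (algebraMap ℂ (TrbK B) c) c := by
  have h := trbEv_of (B := B) s (Polynomial.C (MvPolynomial.C c))
  rw [trbi_C, evalAt_C, MvPolynomial.eval_C] at h
  exact h

theorem trbEv_aeval {σ : Type} {s : Pt n} {k : σ → TrbK B} {v : σ → ℂ}
    (h : ∀ i, TrbEv B s (k i) (v i)) (f : MvPolynomial σ ℂ) :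
    TrbEv B s (MvPolynomial.aeval k f) (MvPolynomial.eval v f) := by
  induction f using MvPolynomial.induction_on with
  | C a =>
    rw [MvPolynomial.aeval_C, MvPolynomial.eval_C]
    exact trbEv_C s a
  | add p q hp hq =>
    rw [map_add, map_add]
    exact hp.add hq
  | mul_X p i hp =>
    rw [map_mul, map_mul, MvPolynomial.aeval_X, MvPolynomial.eval_X]
    exact hp.mul (h i)

/-- The coordinates `x_a` are a transcendence basis of the function field. -/
theorem trb_basis (B : Base n) :
    IsTranscendenceBasis ℂ fun a : Fin n => trbi B (Polynomial.C (MvPolynomial.X a)) := by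
  have h1 : Module.Finite (MvPolynomial (Fin n) ℂ) (TrbR B) := B.monic.finite_adjoinRoot
  have h2 : Algebra.IsAlgebraic (MvPolynomial (Fin n) ℂ) (TrbR B) := inferInstance
  have h3 : Algebra.IsAlgebraic (TrbR B) (TrbK B) :=
    IsLocalization.isAlgebraic (TrbK B) (nonZeroDivisors (TrbR B))
  have h4 : Algebra.IsAlgebraic (MvPolynomial (Fin n) ℂ) (TrbK B) := .trans _ (TrbR B) _
  have h5' : Function.Injective (algebraMap (MvPolynomial (Fin n) ℂ) (TrbR B)) := by
    rw [injective_iff_map_eq_zero]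
    intro c hc
    have h6 : AdjoinRoot.mk B.P (Polynomial.C c) = 0 := hc
    rw [AdjoinRoot.mk_eq_zero] at h6
    by_contra hne
    have h7 := Polynomial.natDegree_le_of_dvd h6 (Polynomial.C_ne_zero.2 hne)
    rw [Polynomial.natDegree_C] at h7
    have h8 := B.monic.natDegree_eq_zero.1 (Nat.le_zero.1 h7)
    exact not_irreducible_one (h8 ▸ B.irreducible)
  have h5 : Function.Injective (algebraMap (MvPolynomial (Fin n) ℂ) (TrbK B)) := by
    rw [IsScalarTower.algebraMap_eq (MvPolynomial (Fin n) ℂ) (TrbR B) (TrbK B)]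
    exact (IsFractionRing.injective (TrbR B) (TrbK B)).comp h5'
  have h6 : FaithfulSMul (MvPolynomial (Fin n) ℂ) (TrbK B) :=
    (faithfulSMul_iff_algebraMap_injective _ _).2 h5
  exact (IsTranscendenceBasis.mvPolynomial (Fin n) ℂ).algebraMap_comp

theorem exists_basis {r : ℕ} (y : Fin r → Pt n → ℂ) (hy : ∀ j, B.IsRational (y j))
    (hol : ∀ j, ∀ s ∈ B.pts, B.HolAt (y j) s) (hind : B.AlgIndep y) :
    ∃ (z : Fin n → Pt n → ℂ) (emb : Fin r ↪ Fin n) (β : Poly n)
      (f : Fin n → MvPolynomial (Option (Fin n)) ℂ),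
      (∀ j, z (emb j) = y j) ∧ (∀ k, k ∉ Set.range emb → ∃ a : Fin n, z k = fun s => s.1 a) ∧
      (∃ s ∈ B.pts, evalAt s β ≠ 0) ∧
      ∀ s ∈ B.pts, evalAt s β ≠ 0 → ∀ b,
        MvPolynomial.eval (fun o => o.elim (s.1 b) fun k => z k s) (f b) = 0 ∧
        MvPolynomial.eval (fun o => o.elim (s.1 b) fun k => z k s)
          (MvPolynomial.pderiv none (f b)) ≠ 0 := by
  classical
  choose α β hβ hy' using hy
  obtain ⟨κ, hκdef⟩ : ∃ κ : Fin r → TrbK B, κ = fun j => trbi B (α j) / trbi B (β j) := ⟨_, rfl⟩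
  have hβ0 : ∀ j, trbi B (β j) ≠ 0 := fun j => (trbi_ne_zero _).2 (hβ j)
  have hκ : ∀ j, κ j * trbi B (β j) = trbi B (α j) := fun j => by
    rw [hκdef]
    exact div_mul_cancel₀ _ (hβ0 j)
  have hev : ∀ j, ∀ s ∈ B.pts, evalAt s (β j) ≠ 0 → TrbEv B s (κ j) (y j s) :=
    fun j s hs hb => ⟨α j, β j, hb, hκ j, by rw [mul_comm]; exact hy' j s hs⟩
  have hzero : ∀ s : Pt n, TrbEv B s 0 0 := fun s =>
    ⟨0, 1, by rw [map_one]; exact one_ne_zero, by rw [zero_mul, map_zero],
      by rw [zero_mul, map_zero]⟩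
  obtain ⟨b0, hb0def⟩ : ∃ b0 : Poly n, b0 = ∏ j, β j := ⟨_, rfl⟩
  have hb0 : trbi B b0 ≠ 0 := by
    rw [hb0def, map_prod]
    exact Finset.prod_ne_zero_iff.2 fun j _ => hβ0 j
  have hb0' : ∀ s, evalAt s b0 ≠ 0 → ∀ j, evalAt s (β j) ≠ 0 := by
    intro s h j
    rw [hb0def, map_prod] at h
    exact Finset.prod_ne_zero_iff.1 h j (Finset.mem_univ j)
  have hind' : AlgebraicIndependent ℂ κ := by
    rw [algebraicIndependent_iff]
    intro p hp
    apply hind
    have hcont : ContinuousOn (fun s => MvPolynomial.eval (fun j => y j s) p) B.pts := by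
      intro s hs
      exact (MvPolynomial.continuous_eval p).continuousAt.comp_continuousWithinAt
        (continuousWithinAt_pi.2 fun j => (hol j s hs).continuousWithinAt hs)
    exact Base.eq_of_eq_on_ne (B := B) b0 ((trbi_ne_zero _).1 hb0) _ (fun _ => 0) hcont
      continuousOn_const (fun s hs hb => by
        have h1 := trbEv_aeval (fun j => hev j s hs (hb0' s hb j)) p
        rw [hp] at h1
        exact h1.uniq hs (hzero s))
  obtain ⟨z, emb, f, hz1, hz2, hz3⟩ := trb_alg (trb_basis B) hind'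
  have hX : ∀ (s : Pt n) (a : Fin n),
      TrbEv B s (trbi B (Polynomial.C (MvPolynomial.X a))) (s.1 a) := by
    intro s a
    have h := trbEv_of (B := B) s (Polynomial.C (MvPolynomial.X a))
    rw [evalAt_C, MvPolynomial.eval_X] at h
    exact h
  have hex : ∀ k, ∃ w : Pt n → ℂ, (∀ j, emb j = k → w = y j) ∧
      ((k ∉ Set.range emb) → ∃ a : Fin n, w = fun s => s.1 a) ∧
      ∀ s ∈ B.pts, evalAt s b0 ≠ 0 → TrbEv B s (z k) (w s) := by
    intro k
    by_cases hk : k ∈ Set.range emb
    · obtain ⟨j, rfl⟩ := hk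
      refine ⟨y j, fun j' h => by rw [emb.injective h], fun h => absurd ⟨j, rfl⟩ h,
        fun s hs hb => ?_⟩
      rw [hz1]
      exact hev j s hs (hb0' s hb j)
    · obtain ⟨a, ha⟩ := hz2 k hk
      refine ⟨fun s => s.1 a, fun j h => absurd ⟨j, h⟩ hk, fun _ => ⟨a, rfl⟩,
        fun s _ _ => ?_⟩
      rw [ha]
      exact hX s a
  choose w hw1 hw2 hw3 using hex
  have hnum : ∀ b, ∃ a d : Poly n, trbi B d ≠ 0 ∧ trbi B a ≠ 0 ∧
      MvPolynomial.aeval (fun o : Option (Fin n) =>
        o.elim (trbi B (Polynomial.C (MvPolynomial.X b))) z)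
          (MvPolynomial.pderiv none (f b)) * trbi B d = trbi B a := by
    intro b
    obtain ⟨a, d, hd, had⟩ := trb_frac (MvPolynomial.aeval (fun o : Option (Fin n) =>
        o.elim (trbi B (Polynomial.C (MvPolynomial.X b))) z)
          (MvPolynomial.pderiv none (f b)))
    exact ⟨a, d, hd, by rw [← had]; exact mul_ne_zero (hz3 b).2 hd, had⟩
  choose num den hden hnum hnd using hnum
  refine ⟨w, emb, b0 * ∏ b, (num b * den b), f, fun j => hw1 _ j rfl, hw2,
    (trbi_ne_zero _).1 ?_, ?_⟩
  · rw [map_mul, map_prod]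
    refine mul_ne_zero hb0 (Finset.prod_ne_zero_iff.2 fun b _ => ?_)
    rw [map_mul]
    exact mul_ne_zero (hnum b) (hden b)
  · intro s hs hβs b
    rw [map_mul, map_prod] at hβs
    have h0 : evalAt s b0 ≠ 0 := left_ne_zero_of_mul hβs
    have h1 := Finset.prod_ne_zero_iff.1 (right_ne_zero_of_mul hβs) b (Finset.mem_univ b)
    rw [map_mul] at h1
    have h1a : evalAt s (num b) ≠ 0 := left_ne_zero_of_mul h1
    have h1b : evalAt s (den b) ≠ 0 := right_ne_zero_of_mul h1
    have hE : ∀ g : MvPolynomial (Option (Fin n)) ℂ,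
        TrbEv B s (MvPolynomial.aeval (fun o : Option (Fin n) =>
          o.elim (trbi B (Polynomial.C (MvPolynomial.X b))) z) g)
          (MvPolynomial.eval (fun o => o.elim (s.1 b) fun k => w k s) g) := by
      intro g
      refine trbEv_aeval ?_ g
      rintro (_ | k)
      · exact hX s b
      · exact hw3 k s hs h0
    constructor
    · have h2 := hE (f b)
      rw [(hz3 b).1] at h2
      exact h2.uniq hs (hzero s)
    · intro h
      have h2 := hE (MvPolynomial.pderiv none (f b))
      have h3 : TrbEv B s (MvPolynomial.aeval (fun o : Option (Fin n) =>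
          o.elim (trbi B (Polynomial.C (MvPolynomial.X b))) z)
          (MvPolynomial.pderiv none (f b))) (evalAt s (num b) / evalAt s (den b)) :=
        ⟨num b, den b, h1b, hnd b, div_mul_cancel₀ _ h1b⟩
      have h4 := h2.uniq hs h3
      rw [h] at h4
      exact div_ne_zero h1a h1b h4.symm

end MP_cb3775_ag
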